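import Pool.Agent.TH280.DH.Stm

/-! Job 5696: equidistribution of `(z, z ^ n)` (MP_540347_an). -/

set_option autoImplicit false

namespace Pool.Agent.TH554.DH

open Complex Filter Topology MeasureTheory Pool.Agent.TH280.DH

/-- the point of the unit circle -/
noncomputable def E (t : ℝ) : ℂ := circleMap 0 1 t

theorem E_cont : Continuous E := continuous_circleMap 0 1

theorem E_eq (t : ℝ) : E t = Complex.exp (t * I) := by
  simp [E, circleMap]

theorem E_norm (t : ℝ) : ‖E t‖ = 1 := by
  rw [E_eq]; exact Complex.norm_exp_ofReal_mul_I t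

theorem E_pow (t : ℝ) (n : ℕ) : E t ^ n = E (n * t) := by
  rw [E_eq, E_eq, ← Complex.exp_nat_mul]
  congr 1; push_cast; ring

theorem E_dist (t s : ℝ) : ‖E (t + s) - E t‖ ≤ |s| := by
  have h : E (t + s) - E t = E t * (Complex.exp (I * s) - 1) := by
    rw [E_eq, E_eq, mul_sub, ← Complex.exp_add, mul_one]
    congr 2; push_cast; ring
  rw [h, norm_mul, E_norm, one_mul]
  simpa using Real.norm_exp_I_mul_ofReal_sub_one_le (x := s)

theorem av_eq (f : ℂ → ℝ) : av f = (2 * Real.pi)⁻¹ * ∫ t in (0 : ℝ)..2 * Real.pi, f (E t) := rfl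

theorem av_shift (f : ℂ → ℝ) (η : ℝ) :
    av f = (2 * Real.pi)⁻¹ * ∫ t in (0 : ℝ)..2 * Real.pi, f (E (t + η)) :=
  Real.circleAverage_eq_integral_add η

theorem main : S_EQ := by
  intro Ψ hΨ
  rw [Metric.tendsto_atTop]
  intro ε hε
  have hpi : (0 : ℝ) < 2 * Real.pi := Real.two_pi_pos
  -- uniform continuity
  obtain ⟨δ, hδ, huc⟩ : ∃ δ > 0, ∀ a b w : ℂ, ‖a‖ = 1 → ‖b‖ = 1 → ‖w‖ = 1 → ‖a - b‖ < δ →
      |Ψ a w - Ψ b w| < ε / 2 := by
    have hK : IsCompact ((Metric.sphere (0 : ℂ) 1) ×ˢ (Metric.sphere (0 : ℂ) 1)) :=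
      (isCompact_sphere _ _).prod (isCompact_sphere _ _)
    have hu := hK.uniformContinuousOn_of_continuous hΨ.continuousOn
    rw [Metric.uniformContinuousOn_iff] at hu
    obtain ⟨δ, hδ, h⟩ := hu (ε / 2) (half_pos hε)
    refine ⟨δ, hδ, fun a b w ha hb hw hab => ?_⟩
    have := h (a, w) ⟨by simpa using ha, by simpa using hw⟩ (b, w)
      ⟨by simpa using hb, by simpa using hw⟩ (by
        rw [Prod.dist_eq]
        simp only [dist_self]
        rw [dist_eq_norm]
        exact max_lt hab hδ)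
    rwa [Real.dist_eq] at this
  obtain ⟨N, hN⟩ := exists_nat_gt (2 * Real.pi / δ)
  refine ⟨N + 1, fun n hn => ?_⟩
  have hn0 : (0 : ℝ) < n := by
    have : 0 < n := by omega
    exact_mod_cast this
  have hnN : 2 * Real.pi / δ < n := lt_of_lt_of_le hN (by
    have : N ≤ n := by omega
    exact_mod_cast this)
  have hsmall : 2 * Real.pi / n < δ := by
    rw [div_lt_iff₀ hδ] at hnN
    rw [div_lt_iff₀ hn0]; linarith
  -- continuity facts
  have hc2 : Continuous fun q : ℝ × ℝ => Ψ (E q.2) (E (q.1 + n * q.2)) := by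
    have h1 : Continuous fun q : ℝ × ℝ => (E q.2, E (q.1 + n * q.2)) :=
      (E_cont.comp continuous_snd).prodMk (E_cont.comp (by fun_prop))
    exact hΨ.comp h1
  set c : ℝ → ℝ := fun s => (2 * Real.pi)⁻¹ * ∫ t in (0 : ℝ)..2 * Real.pi, Ψ (E t) (E (s + n * t))
    with hc
  have hcc : Continuous c := by
    apply Continuous.mul continuous_const
    exact intervalIntegral.continuous_parametric_intervalIntegral_of_continuous' hc2 _ _
  -- the double average
  have hB : av (fun z => av (fun w => Ψ z w)) = (2 * Real.pi)⁻¹ * ∫ s in (0 : ℝ)..2 * Real.pi, c s := by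
    rw [av_eq]
    congr 1
    have e1 : ∀ t : ℝ, av (fun w => Ψ (E t) w)
        = (2 * Real.pi)⁻¹ * ∫ s in (0 : ℝ)..2 * Real.pi, Ψ (E t) (E (s + n * t)) :=
      fun t => av_shift _ _
    simp only [e1, hc]
    rw [intervalIntegral.integral_const_mul, intervalIntegral.integral_const_mul]
    congr 1
    refine MeasureTheory.intervalIntegral_intervalIntegral_swap
      (F := fun t s => Ψ (E t) (E (s + n * t))) ?_
    have hc3 : Continuous (Function.uncurry fun t s : ℝ => Ψ (E t) (E (s + n * t))) := by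
      exact hc2.comp continuous_swap
    refine (hc3.continuousOn.integrableOn_compact
      (isCompact_uIcc.prod isCompact_uIcc)).mono_set
      (Set.prod_mono Set.uIoc_subset_uIcc Set.uIoc_subset_uIcc)
  -- comparison
  have hcmp : ∀ s ∈ Set.uIoc (0 : ℝ) (2 * Real.pi), ‖c s - av (fun z => Ψ z (z ^ n))‖ ≤ ε / 2 := by
    intro s hs
    rw [Set.uIoc_of_le hpi.le] at hs
    have e1 : av (fun z => Ψ z (z ^ n))
        = (2 * Real.pi)⁻¹ * ∫ t in (0 : ℝ)..2 * Real.pi, Ψ (E (t + s / n)) (E (s + n * t)) := by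
      rw [av_shift _ (s / n)]
      congr 2
      ext t
      rw [E_pow]
      congr 2
      field_simp
      ring
    rw [e1, hc]
    simp only
    rw [← mul_sub, ← intervalIntegral.integral_sub]
    · rw [norm_mul, Real.norm_of_nonneg (inv_nonneg.2 hpi.le)]
      have := intervalIntegral.norm_integral_le_of_norm_le_const (a := 0) (b := 2 * Real.pi)
        (C := ε / 2) (f := fun t => Ψ (E t) (E (s + n * t)) - Ψ (E (t + s / n)) (E (s + n * t)))
        (fun t _ => by
          rw [Real.norm_eq_abs, abs_sub_comm]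
          refine (huc _ _ _ (E_norm _) (E_norm _) (E_norm _) ?_).le
          refine lt_of_le_of_lt (E_dist t (s / n)) ?_
          rw [abs_of_pos (div_pos hs.1 hn0)]
          exact lt_of_le_of_lt (div_le_div_of_nonneg_right hs.2 hn0.le) hsmall)
      rw [sub_zero, abs_of_pos hpi] at this
      calc (2 * Real.pi)⁻¹ * _ ≤ (2 * Real.pi)⁻¹ * (ε / 2 * (2 * Real.pi)) :=
            mul_le_mul_of_nonneg_left this (inv_nonneg.2 hpi.le)
        _ = ε / 2 := by field_simp
    · apply Continuous.intervalIntegrable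
      exact hc2.comp (Continuous.prodMk continuous_const continuous_id)
    · apply Continuous.intervalIntegrable
      have h1 : Continuous fun t : ℝ => (E (t + s / n), E (s + n * t)) :=
        (E_cont.comp (by fun_prop)).prodMk (E_cont.comp (by fun_prop))
      exact hΨ.comp h1
  rw [Real.dist_eq, abs_sub_comm, hB]
  set A := av (fun z => Ψ z (z ^ n)) with hA
  have e2 : (2 * Real.pi)⁻¹ * (∫ s in (0 : ℝ)..2 * Real.pi, c s) - A
      = (2 * Real.pi)⁻¹ * ∫ s in (0 : ℝ)..2 * Real.pi, (c s - A) := by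
    rw [intervalIntegral.integral_sub (hcc.intervalIntegrable _ _) intervalIntegrable_const,
      intervalIntegral.integral_const, sub_zero, smul_eq_mul]
    field_simp
  rw [e2, abs_mul, abs_of_pos (inv_pos.2 hpi)]
  have h3 := intervalIntegral.norm_integral_le_of_norm_le_const hcmp
  rw [sub_zero, abs_of_pos hpi, Real.norm_eq_abs] at h3
  calc (2 * Real.pi)⁻¹ * |∫ s in (0 : ℝ)..2 * Real.pi, (c s - A)|
      ≤ (2 * Real.pi)⁻¹ * (ε / 2 * (2 * Real.pi)) :=
        mul_le_mul_of_nonneg_left h3 (inv_nonneg.2 hpi.le)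
    _ = ε / 2 := by field_simp
    _ < ε := half_lt_self hε

end Pool.Agent.TH554.DH
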